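import Mathlib

/-!
# Hyperopic Cops and Robber

Definitions of the game of Hyperopic Cops and Robber by means of the knowledge of the cops, and some
general lemmas.
-/

set_option autoImplicit false

namespace Pool.Agent.Q291.Hyperopic

/-- The join of two graphs. -/
def join {α β : Type} (G : SimpleGraph α) (J : SimpleGraph β) : SimpleGraph (α ⊕ β) where
  Adj
    | Sum.inl a, Sum.inl b => G.Adj a b
    | Sum.inr a, Sum.inr b => J.Adj a b
    | Sum.inl _, Sum.inr _ => True
    | Sum.inr _, Sum.inl _ => True
  symm := ⟨by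
    rintro (a | a) (b | b) h
    · exact G.symm.symm _ _ h
    · trivial
    · trivial
    · exact J.symm.symm _ _ h⟩
  loopless := ⟨by
    rintro (a | a) h
    · exact G.loopless.irrefl a h
    · exact J.loopless.irrefl a h⟩

variable {V : Type} (G : SimpleGraph V)

open Classical in
/-- What the cops at `c` see if the robber is at `r`: nothing if all cops are adjacent to him, and his
vertex otherwise. -/
noncomputable def obs {k : ℕ} (c : Fin k → V) (r : V) : Option V :=
  if ∀ i, G.Adj (c i) r then none else some r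

/-- The possible positions of the robber after one round.  Before the round he was, to the knowledge
of the cops, at one of the vertices of `B`.  The cops went to `d` and did not capture him and observed
`o₁`; then he moved (to an adjacent vertex, or not), not to a vertex of a cop, and the cops observed
`o₂`. -/
def next {k : ℕ} (d : Fin k → V) (B : Set V) (o₁ o₂ : Option V) : Set V :=
  {r' | (∀ i, d i ≠ r') ∧ obs G d r' = o₂ ∧
    ∃ r ∈ B, (∀ i, d i ≠ r) ∧ obs G d r = o₁ ∧ (r' = r ∨ G.Adj r r')}

/-- The cops are at `c` and have to move, and to their knowledge the robber is at one of the vertices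
of `B`.  They can force a capture in finitely many rounds, with moves depending only on what they
observe: there is a joint move such that, whatever they observe after their move and after the move of
the robber, they win from the resulting position. -/
inductive Wins {k : ℕ} : (Fin k → V) → Set V → Prop
  | step (c : Fin k → V) (B : Set V) (d : Fin k → V) (hd : ∀ i, d i = c i ∨ G.Adj (c i) (d i))
      (h : ∀ o₁ o₂ : Option V, (next G d B o₁ o₂).Nonempty → Wins d (next G d B o₁ o₂)) : Wins c B

/-- The possible positions of the robber after he has chosen a vertex without cops and the cops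
observed `o`. -/
def start {k : ℕ} (c : Fin k → V) (o : Option V) : Set V := {r | (∀ i, c i ≠ r) ∧ obs G c r = o}

/-- `k` cops have a winning strategy. -/
def CopsWin (k : ℕ) : Prop :=
  ∃ c : Fin k → V, ∀ o : Option V, (start G c o).Nonempty → Wins G c (start G c o)

/-- The hyperopic cop number `c_H(G)`. -/
noncomputable def cH : ℕ := sInf {k | CopsWin G k}

/-- The least size `Υ(G)` of a nonempty set `S` of vertices with at most `|S|` common neighbours. -/
noncomputable def Upsilon : ℕ :=
  sInf {m | ∃ S : Finset V, S.Nonempty ∧ S.card = m ∧ Set.ncard {w | ∀ v ∈ S, G.Adj v w} ≤ S.card}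

variable {G}

lemma next_mono {k : ℕ} (d : Fin k → V) {B B' : Set V} (h : B' ⊆ B) (o₁ o₂ : Option V) :
    next G d B' o₁ o₂ ⊆ next G d B o₁ o₂ := by
  rintro r' ⟨h1, h2, r, hr, h3⟩
  exact ⟨h1, h2, r, h hr, h3⟩

lemma Wins.mono {k : ℕ} {c : Fin k → V} {B : Set V} (hw : Wins G c B) :
    ∀ B' : Set V, B' ⊆ B → Wins G c B' := by
  induction hw with
  | step c B d hd _ ih =>
    intro B' hB
    exact Wins.step c B' d hd fun o₁ o₂ hne =>
      ih o₁ o₂ (hne.mono (next_mono d hB o₁ o₂)) _ (next_mono d hB o₁ o₂)

lemma obs_comp {k m : ℕ} (f : Fin m → Fin k) (hf : Function.Surjective f) (c : Fin k → V) (r : V) :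
    obs G (c ∘ f) r = obs G c r := by
  have h : (∀ i, G.Adj ((c ∘ f) i) r) ↔ ∀ i, G.Adj (c i) r := by
    constructor
    · intro h i
      obtain ⟨j, rfl⟩ := hf i
      exact h j
    · intro h i
      exact h (f i)
  unfold obs
  by_cases h0 : ∀ i, G.Adj (c i) r
  · rw [if_pos h0, if_pos (h.2 h0)]
  · rw [if_neg h0, if_neg fun h1 => h0 (h.1 h1)]

lemma ne_comp {k m : ℕ} (f : Fin m → Fin k) (hf : Function.Surjective f) (c : Fin k → V) (r : V) :
    (∀ i, (c ∘ f) i ≠ r) ↔ ∀ i, c i ≠ r := by
  constructor
  · intro h i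
    obtain ⟨j, rfl⟩ := hf i
    exact h j
  · intro h i
    exact h (f i)

lemma next_comp {k m : ℕ} (f : Fin m → Fin k) (hf : Function.Surjective f) (d : Fin k → V)
    (B : Set V) (o₁ o₂ : Option V) : next G (d ∘ f) B o₁ o₂ = next G d B o₁ o₂ := by
  ext r'
  simp only [next, Set.mem_ofPred_eq, obs_comp f hf, ne_comp f hf]

lemma Wins.comp {k m : ℕ} (f : Fin m → Fin k) (hf : Function.Surjective f) {c : Fin k → V}
    {B : Set V} (hw : Wins G c B) : Wins G (c ∘ f) B := by
  induction hw with
  | step c B d hd _ ih =>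
    refine Wins.step _ _ (d ∘ f) (fun i => hd (f i)) fun o₁ o₂ hne => ?_
    rw [next_comp f hf] at hne ⊢
    exact ih o₁ o₂ hne

lemma CopsWin.comp {k m : ℕ} (f : Fin m → Fin k) (hf : Function.Surjective f)
    (h : CopsWin G k) : CopsWin G m := by
  obtain ⟨c, hc⟩ := h
  refine ⟨c ∘ f, fun o hne => ?_⟩
  have hs : start G (c ∘ f) o = start G c o := by
    ext r
    simp only [start, Set.mem_ofPred_eq, obs_comp f hf, ne_comp f hf]
  rw [hs] at hne ⊢
  exact (hc o hne).comp f hf

lemma not_wins_zero {c : Fin 0 → V} {B : Set V} (hw : Wins G c B) : ¬ B.Nonempty := by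
  induction hw with
  | step c B d hd _ ih =>
    rintro ⟨r, hr⟩
    have h0 : ∀ x : V, obs G d x = none := by
      intro x
      unfold obs
      rw [if_pos (fun i => i.elim0)]
    have hne : (next G d B none none).Nonempty :=
      ⟨r, fun i => i.elim0, h0 r, r, hr, fun i => i.elim0, h0 r, Or.inl rfl⟩
    exact ih none none hne hne

lemma not_copsWin_zero [Nonempty V] : ¬ CopsWin G 0 := by
  rintro ⟨c, hc⟩
  have h0 : ∀ x : V, obs G c x = none := by
    intro x
    unfold obs
    rw [if_pos (fun i => i.elim0)]
  have hne : (start G c none).Nonempty := ⟨Classical.arbitrary V, fun i => i.elim0, h0 _⟩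
  exact not_wins_zero (hc none hne) hne

lemma copsWin_card [Fintype V] : CopsWin G (Fintype.card V) := by
  refine ⟨(Fintype.equivFin V).symm, fun o hne => ?_⟩
  obtain ⟨r, hr, _⟩ := hne
  exact absurd (by simp) (hr (Fintype.equivFin V r))

/-- A lower bound for the hyperopic cop number. -/
lemma lt_cH [Fintype V] [Nonempty V] {k : ℕ} (h : ¬ CopsWin G k) : k < cH G := by
  by_contra hle
  rw [not_lt] at hle
  have hmem : CopsWin G (cH G) := Nat.sInf_mem (⟨_, copsWin_card⟩ : {k | CopsWin G k}.Nonempty)
  rcases Nat.eq_zero_or_pos (cH G) with h0 | h0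
  · rw [h0] at hmem
    exact not_copsWin_zero hmem
  · refine h (hmem.comp (fun i : Fin k => (⟨min i.val (cH G - 1), by omega⟩ : Fin (cH G))) ?_)
    intro j
    refine ⟨⟨j.val, by omega⟩, Fin.ext ?_⟩
    have := j.2
    simp only
    omega

/-- If the robber was at `r`, then after his next move he can be at all vertices `v` in the closed
neighbourhood of `r` which are adjacent to all cops; the cops do not see him there. -/
lemma mem_next_none {k : ℕ} {d : Fin k → V} {B : Set V} {r v : V} (hr : r ∈ B)
    (hdr : ∀ i, d i ≠ r) (hv : ∀ i, G.Adj (d i) v) (hrv : v = r ∨ G.Adj r v) :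
    v ∈ next G d B (obs G d r) none := by
  refine ⟨fun i hi => ?_, ?_, r, hr, hdr, rfl, hrv⟩
  · have h := hv i
    rw [hi] at h
    exact G.loopless.irrefl v h
  · unfold obs
    rw [if_pos hv]

/-- If the robber was at `r`, then after his next move he can be at any vertex `x` in the closed
neighbourhood of `r` which is not occupied; he is seen there if some cop is not adjacent. -/
lemma mem_next_some {k : ℕ} {d : Fin k → V} {B : Set V} {r x : V} (hr : r ∈ B)
    (hdr : ∀ i, d i ≠ r) (hx : ∀ i, d i ≠ x) (hx' : ¬ ∀ i, G.Adj (d i) x)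
    (hrx : x = r ∨ G.Adj r x) : x ∈ next G d B (obs G d r) (some x) := by
  refine ⟨hx, ?_, r, hr, hdr, rfl, hrx⟩
  unfold obs
  rw [if_neg hx']

lemma mem_start_none {k : ℕ} {c : Fin k → V} {v : V} (hv : ∀ i, G.Adj (c i) v) :
    v ∈ start G c none := by
  refine ⟨fun i hi => ?_, ?_⟩
  · have h := hv i
    rw [hi] at h
    exact G.loopless.irrefl v h
  · unfold obs
    rw [if_pos hv]

lemma mem_start_some {k : ℕ} {c : Fin k → V} {x : V} (hx : ∀ i, c i ≠ x)
    (hx' : ¬ ∀ i, G.Adj (c i) x) : x ∈ start G c (some x) := by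
  refine ⟨hx, ?_⟩
  unfold obs
  rw [if_neg hx']

end Pool.Agent.Q291.Hyperopic
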